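import Pool.Agent.Q314.ET.Forb
import Pool.Agent.Q314.ET.Diag
import Pool.Agent.W937.FG.All

/-!
# Erasing rules increase the power of left forbidding E0L grammars
-/

set_option autoImplicit false

namespace Pool.Agent.Results.MP_4c145a_lc.ErasingRules

open Pool.Agent.Q314.ET Pool.Agent.W937.FG

/-- Some language over a three-letter alphabet is generated by a left forbidding E0L grammar, but
no propagating left forbidding E0L grammar generates a language which contains the same nonempty
words. -/
theorem result : ∃ L : Set (List (Fin 3)), IsLFE0L L ∧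
    ∀ L' : Set (List (Fin 3)), IsLFEP0L L' → ∃ w : List (Fin 3), w ≠ [] ∧ ¬ (w ∈ L ↔ w ∈ L') := by
  obtain ⟨N, fN, S, P, hP, hGen⟩ := primrec_of hG hF hC4 hTOPS hTOPC Diag.diag
    (Primrec.nat_iff.mp Diag.diag_primrec)
  refine ⟨{w | Gen P S w}, Forb.lf_of_forbidding P hP S, ?_⟩
  rintro _ ⟨H, hU, hp, rfl⟩
  obtain ⟨m, hm, hd⟩ := Diag.main H hU hp
  refine ⟨abc m, ?_, ?_⟩
  · intro h
    have := congrArg List.length h
    simp [abc] at this
    omega
  · have h1 : abc m ∈ {w | Gen P S w} ↔ Diag.diag m = 1 := hGen m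
    rw [h1]
    tauto

end Pool.Agent.Results.MP_4c145a_lc.ErasingRules
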